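import Mathlib
import Pool.Agent.W38.AFe

set_option autoImplicit false

/-!
Divergent trajectories of the `3x+1` map: coalescence with all affine neighbours.

Author: helper38.
-/

namespace Pool.Agent.Results.MP_ff4775_nt.AffineNeighbours

open Filter Topology

/-- The accelerated Collatz map on the integers. -/
def T (x : ℤ) : ℤ := if x % 2 = 0 then x / 2 else (3 * x + 1) / 2

/-- The trajectory of `x` is divergent. -/
def Divergent (x : ℤ) : Prop := Tendsto (fun k : ℕ => |T^[k] x|) atTop atTop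

/-- The positive integers with the property `P` have natural density `l`. -/
def HasDensity (P : ℕ → Prop) (l : ℝ) : Prop :=
  Tendsto (fun N : ℕ => ({n : ℕ | 1 ≤ n ∧ n ≤ N ∧ P n}.ncard : ℝ) / N) atTop (𝓝 l)

/-- The scale `√ (log n) / (log log n) ^ 16`. -/
noncomputable def κ (n : ℕ) : ℝ := √ (Real.log n) / (Real.log (Real.log n)) ^ 16

/-- The integers `x` and `m` are linked by the exponents `a, b, a', b'` at the scale of `n`: all the
exponents are `≤ κ n` and `|2^a 3^b m - 2^a' 3^b' x| ≤ exp (κ n)`. -/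
def Linked (n : ℕ) (x m : ℤ) (a b a' b' : ℕ) : Prop :=
  (a : ℝ) ≤ κ n ∧ (b : ℝ) ≤ κ n ∧ (a' : ℝ) ≤ κ n ∧ (b' : ℝ) ≤ κ n ∧
    |((2 ^ a * 3 ^ b * m - 2 ^ a' * 3 ^ b' * x : ℤ) : ℝ)| ≤ Real.exp (κ n)

/-- `m` is an affine neighbour of `x` at the scale of `n`. -/
def Neighbour (n : ℕ) (x m : ℤ) : Prop := ∃ a b a' b' : ℕ, Linked n x m a b a' b'

theorem T_eq : T = Pool.Agent.H499R2.CO.Tz 1 := rfl

theorem div_T (x : ℤ) : Divergent x ↔ Divergent (T x) := by
  unfold Divergent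
  rw [← tendsto_add_atTop_iff_nat (f := fun k : ℕ => |T^[k] x|) 1]
  simp only [Function.iterate_succ_apply]

theorem div_C (x : ℤ) : Divergent x ↔ Divergent (if x % 2 = 0 then x / 2 else 3 * x + 1) := by
  by_cases h : x % 2 = 0
  · rw [if_pos h, div_T x]
    have : T x = x / 2 := by unfold T; rw [if_pos h]
    rw [this]
  · rw [if_neg h, div_T x, div_T (3 * x + 1)]
    have h1 : T x = (3 * x + 1) / 2 := by unfold T; rw [if_neg h]
    have h2 : T (3 * x + 1) = (3 * x + 1) / 2 := by unfold T; rw [if_pos (by omega)]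
    rw [h1, h2]

theorem nb_iff (n : ℕ) (x m : ℤ) : Neighbour n x m ↔ Pool.Agent.W38.AF.NB n x m := by
  constructor
  · rintro ⟨a, b, a', b', h1, h2, h3, h4, h5⟩
    exact ⟨a, a', b, b', h1, h3, h2, h4, h5⟩
  · rintro ⟨a, a', b, b', h1, h3, h2, h4, h5⟩
    exact ⟨a, b, a', b', h1, h2, h3, h4, h5⟩

/-- Let `s = 1` or `s = -1`.
(1) For almost all `n` there is `t` with `4 ^ t ≤ n` such that every affine neighbour `m` of `s n` at
the scale of `n`, that is, every integer `m` with `|2^a 3^b m - 2^a' 3^b' s n| ≤ exp (κ n)` for some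
exponents `a, b, a', b' ≤ κ n`, satisfies `T^(t+a') m = T^(t+a) (s n)`.
(2) Up to the power of `log log n` in `κ n` this is the largest possible range for the exponents of `3`
and for the shifts: for every `ω` tending to infinity, almost all `n` have a `b ≤ ω(n) √(log n)` such
that `T^t (3^b s n) ≠ T^t (s n)` for all `t ≤ log₂ n`, and an `h ≤ exp (ω(n) √(log n))` such that
`T^t (s n + h) ≠ T^t (s n)` for all `t ≤ log₂ n`.
(3) There is `δ`, positive if and only if some integer of sign `s` has a divergent trajectory and equal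
to `1` if and only if all have one, such that in each residue class modulo each `q ≥ 1` the `n` for
which all the affine neighbours of `s n` have divergent trajectories have density `δ / q`, and the `n`
for which no affine neighbour of `s n` has a divergent trajectory have density `(1 - δ) / q`. -/
theorem result (s : ℤ) (hs : s = 1 ∨ s = -1) :
    HasDensity (fun n => ∃ t : ℕ, 4 ^ t ≤ n ∧ ∀ (m : ℤ) (a b a' b' : ℕ),
      Linked n (s * n) m a b a' b' → T^[t + a'] m = T^[t + a] (s * n)) 1 ∧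
    (∀ ω : ℕ → ℝ, Tendsto ω atTop atTop →
      HasDensity (fun n => ∃ b : ℕ, (b : ℝ) ≤ ω n * √ (Real.log n) ∧
        ∀ t : ℕ, 2 ^ t ≤ n → T^[t] (3 ^ b * (s * n)) ≠ T^[t] (s * n)) 1 ∧
      HasDensity (fun n => ∃ h : ℕ, (h : ℝ) ≤ Real.exp (ω n * √ (Real.log n)) ∧
        ∀ t : ℕ, 2 ^ t ≤ n → T^[t] (s * n + h) ≠ T^[t] (s * n)) 1) ∧
    ∃ δ : ℝ, (0 < δ ↔ ∃ x : ℤ, 0 < s * x ∧ Divergent x) ∧
      (δ = 1 ↔ ∀ x : ℤ, 0 < s * x → Divergent x) ∧
      ∀ q c : ℕ, 0 < q →
        HasDensity (fun n => n % q = c % q ∧ ∀ m : ℤ, Neighbour n (s * n) m → Divergent m)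
          (δ / q) ∧
        HasDensity (fun n => n % q = c % q ∧ ∀ m : ℤ, Neighbour n (s * n) m → ¬ Divergent m)
          ((1 - δ) / q) := by
  refine ⟨?_, fun ω hω => ⟨?_, ?_⟩, ?_⟩
  · refine Pool.Agent.W38.AF.HD_congr' (Pool.Agent.W38.AF.fwdN hs) (fun n _ => ?_)
    constructor
    · rintro ⟨t, ht, h⟩
      exact ⟨t, ht, fun m a b a' b' ⟨h1, h2, h3, h4, h5⟩ => h a a' b b' h1 h3 h2 h4 m h5⟩
    · rintro ⟨t, ht, h⟩
      exact ⟨t, ht, fun a a' b b' h1 h3 h2 h4 m h5 => h m a b a' b' ⟨h1, h2, h3, h4, h5⟩⟩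
  · exact Pool.Agent.W38.AF.bwd3 hs hω
  · exact Pool.Agent.W38.AF.bwdr hs hω
  · have hinv : ∀ y : ℤ, y ∈ {y | Divergent y} ↔
        Pool.Agent.H499R2.ND.Ci y ∈ {y | Divergent y} := fun y => div_C y
    obtain ⟨δ, h1, h2, h3⟩ := Pool.Agent.W38.AF.inv_nbr hs hinv
    refine ⟨δ, h1.trans ?_, h2, fun q c hq => ?_⟩
    · constructor
      · rintro ⟨x, hx, hsx⟩
        exact ⟨x, hsx, hx⟩
      · rintro ⟨x, hsx, hx⟩
        exact ⟨x, hx, hsx⟩
    · obtain ⟨h4, h5⟩ := h3 q c hq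
      refine ⟨Pool.Agent.W38.AF.HD_congr' h4 (fun n _ => ?_),
        Pool.Agent.W38.AF.HD_congr' h5 (fun n _ => ?_)⟩
      · simp only [nb_iff]; rfl
      · simp only [nb_iff]; rfl

end Pool.Agent.Results.MP_ff4775_nt.AffineNeighbours
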